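import Mathlib

open Filter Topology
open scoped ComplexOrder

namespace Pool.Agent.Results.MP_3f33d0_an.MixedNorm

/-- `N` is a norm on the linear subspace `E` of `G → ℂ` (only its values on `E` matter). -/
def IsNormOn {G : Type} (E : Submodule ℂ (G → ℂ)) (N : (G → ℂ) → ℝ) : Prop :=
  (∀ f ∈ E, N f = 0 → f = 0) ∧ (∀ c : ℂ, ∀ f ∈ E, N (c • f) = ‖c‖ * N f) ∧
    ∀ f ∈ E, ∀ g ∈ E, N (f + g) ≤ N f + N g

/-- `E` is complete for `N`: every Cauchy sequence in `E` converges in `E`. -/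
def IsCompleteOn {G : Type} (E : Submodule ℂ (G → ℂ)) (N : (G → ℂ) → ℝ) : Prop :=
  ∀ u : ℕ → G → ℂ, (∀ n, u n ∈ E) →
    (∀ ε : ℝ, 0 < ε → ∃ n₀, ∀ m, n₀ ≤ m → ∀ n, n₀ ≤ n → N (u m - u n) < ε) →
    ∃ f ∈ E, ∀ ε : ℝ, 0 < ε → ∃ n₀, ∀ n, n₀ ≤ n → N (u n - f) < ε

/-- `|g| ≤ |f|` and `f ∈ E` imply `g ∈ E` and `N g ≤ N f`. -/
def IsSolidOn {G : Type} (E : Submodule ℂ (G → ℂ)) (N : (G → ℂ) → ℝ) : Prop :=
  ∀ f ∈ E, ∀ g : G → ℂ, (∀ s, ‖g s‖ ≤ ‖f s‖) → g ∈ E ∧ N g ≤ N f

/-- A Banach function space on a discrete group `G` (counting measure is Haar measure, so `L⁰(G)` is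
the space of all functions `G → ℂ` and almost everywhere means everywhere): a linear subspace
`E` of `G → ℂ` with a complete norm `N` such that `|g| ≤ |f|`, `f ∈ E` imply `g ∈ E`, `N g ≤ N f`. -/
structure BFS (G : Type) where
  /-- the underlying linear subspace -/
  E : Submodule ℂ (G → ℂ)
  /-- the norm -/
  N : (G → ℂ) → ℝ
  isNorm : IsNormOn E N
  complete : IsCompleteOn E N
  solid : IsSolidOn E N

namespace BFS

variable {G : Type} (X : BFS G)

/-- Linear operators on the Banach function space. -/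
abbrev Op : Type := X.E →ₗ[ℂ] X.E

/-- `T` is a bounded operator on the Banach function space. -/
def IsBdd (T : X.Op) : Prop :=
  ∃ C : ℝ, ∀ f : X.E, X.N (T f) ≤ C * X.N f

/-- `T` is positive: `f ≥ 0` implies `T f ≥ 0` (pointwise). -/
def IsPos (T : X.Op) : Prop :=
  ∀ f : X.E, (∀ s, 0 ≤ (f : G → ℂ) s) → ∀ s, 0 ≤ (T f : G → ℂ) s

/-- `T` is regular: a complex linear combination of positive operators. -/
def IsRegular (T : X.Op) : Prop :=
  T ∈ Submodule.span ℂ {P : X.Op | X.IsPos P}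

/-- Left and right translations map `E` isometrically into itself. -/
def IsoInvariant [Group G] : Prop :=
  ∀ t : G, ∀ f ∈ X.E, ((fun s => f (s * t)) ∈ X.E ∧ X.N (fun s => f (s * t)) = X.N f) ∧
    ((fun s => f (t⁻¹ * s)) ∈ X.E ∧ X.N (fun s => f (t⁻¹ * s)) = X.N f)

/-- `T` commutes with all right translations `ρ_t f (s) = f (s t)`: whenever `g = ρ_t f` with
`f, g ∈ E`, then `T g = ρ_t (T f)`. -/
def CommutesRight [Group G] (T : X.Op) : Prop :=
  ∀ t : G, ∀ f g : X.E, (∀ s, (g : G → ℂ) s = (f : G → ℂ) (s * t)) →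
    ∀ s, (T g : G → ℂ) s = (T f : G → ℂ) (s * t)

end BFS

/-! ### The space `ℓ¹(H; c₀(K))` -/

section Space

variable {H K : Type}

/-- Finite sets meeting each fibre `{h} × K` at most once. -/
def IsGraph (S : Finset (H × K)) : Prop := ∀ x ∈ S, ∀ y ∈ S, x.1 = y.1 → x = y

theorem IsGraph.subset {S S' : Finset (H × K)} (h : IsGraph S) (h' : S' ⊆ S) : IsGraph S' :=
  fun x hx y hy => h x (h' hx) y (h' hy)

theorem isGraph_singleton (x : H × K) : IsGraph {x} := by
  intro a ha b hb _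
  rw [Finset.mem_singleton] at ha hb
  rw [ha, hb]

/-- The predicate that `C` bounds all graph sums of `f`. -/
def Bd (f : H × K → ℂ) (C : ℝ) : Prop := ∀ S : Finset (H × K), IsGraph S → ∑ x ∈ S, ‖f x‖ ≤ C

/-- The norm of `ℓ¹(H; c₀(K))`. -/
noncomputable def nrm (f : H × K → ℂ) : ℝ :=
  sSup {r : ℝ | ∃ S : Finset (H × K), IsGraph S ∧ r = ∑ x ∈ S, ‖f x‖}

theorem Bd.nonneg {f : H × K → ℂ} {C : ℝ} (h : Bd f C) : 0 ≤ C := by
  have := h ∅ (fun x hx => by simp at hx)
  simpa using this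

theorem nrm_le {f : H × K → ℂ} {C : ℝ} (h : Bd f C) : nrm f ≤ C := by
  refine Real.sSup_le ?_ h.nonneg
  rintro r ⟨S, hS, rfl⟩
  exact h S hS

theorem bd_nrm {f : H × K → ℂ} {C : ℝ} (h : Bd f C) : Bd f (nrm f) := by
  intro S hS
  refine le_csSup ⟨C, ?_⟩ ⟨S, hS, rfl⟩
  rintro r ⟨S', hS', rfl⟩
  exact h S' hS'

/-- The carrier: the closure of the finitely supported functions. -/
def Mem (f : H × K → ℂ) : Prop :=
  ∀ ε : ℝ, 0 < ε → ∃ F : Finset (H × K), ∀ S : Finset (H × K), IsGraph S → Disjoint S F →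
    ∑ x ∈ S, ‖f x‖ ≤ ε

theorem Mem.bd {f : H × K → ℂ} (h : Mem f) : ∃ C, Bd f C := by
  classical
  obtain ⟨F, hF⟩ := h 1 one_pos
  refine ⟨∑ x ∈ F, ‖f x‖ + 1, fun S hS => ?_⟩
  rw [← Finset.sum_inter_add_sum_sdiff S F]
  have h1 : ∑ x ∈ S ∩ F, ‖f x‖ ≤ ∑ x ∈ F, ‖f x‖ :=
    Finset.sum_le_sum_of_subset_of_nonneg Finset.inter_subset_right
      (fun _ _ _ => norm_nonneg _)
  have h2 := hF (S \ F) (hS.subset Finset.sdiff_subset) Finset.sdiff_disjoint
  linarith

theorem Mem.bd_nrm {f : H × K → ℂ} (h : Mem f) : Bd f (nrm f) := by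
  obtain ⟨C, hC⟩ := h.bd
  exact MixedNorm.bd_nrm hC

theorem Mem.nrm_nonneg {f : H × K → ℂ} (h : Mem f) : 0 ≤ nrm f := h.bd_nrm.nonneg

theorem Mem.norm_le {f : H × K → ℂ} (h : Mem f) (x : H × K) : ‖f x‖ ≤ nrm f := by
  have := h.bd_nrm {x} (isGraph_singleton x)
  simpa using this

theorem Mem.add {f g : H × K → ℂ} (hf : Mem f) (hg : Mem g) : Mem (f + g) := by
  classical
  intro ε hε
  obtain ⟨F, hF⟩ := hf (ε / 2) (by linarith)
  obtain ⟨F', hF'⟩ := hg (ε / 2) (by linarith)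
  refine ⟨F ∪ F', fun S hS hd => ?_⟩
  rw [Finset.disjoint_union_right] at hd
  have h1 := hF S hS hd.1
  have h2 := hF' S hS hd.2
  calc ∑ x ∈ S, ‖(f + g) x‖ ≤ ∑ x ∈ S, (‖f x‖ + ‖g x‖) :=
        Finset.sum_le_sum fun x _ => norm_add_le _ _
    _ = ∑ x ∈ S, ‖f x‖ + ∑ x ∈ S, ‖g x‖ := Finset.sum_add_distrib
    _ ≤ ε := by linarith

theorem Mem.smul {f : H × K → ℂ} (hf : Mem f) (c : ℂ) : Mem (c • f) := by
  intro ε hε
  obtain ⟨F, hF⟩ := hf (ε / (‖c‖ + 1)) (by positivity)
  refine ⟨F, fun S hS hd => ?_⟩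
  have h1 := hF S hS hd
  have h2 : ∑ x ∈ S, ‖(c • f) x‖ = ‖c‖ * ∑ x ∈ S, ‖f x‖ := by
    rw [Finset.mul_sum]
    refine Finset.sum_congr rfl fun x _ => ?_
    rw [Pi.smul_apply, norm_smul]
  rw [h2]
  calc ‖c‖ * ∑ x ∈ S, ‖f x‖ ≤ (‖c‖ + 1) * (ε / (‖c‖ + 1)) := by
        refine mul_le_mul (by linarith) h1 (Finset.sum_nonneg fun _ _ => norm_nonneg _)
          (by positivity)
    _ = ε := by field_simp

theorem Mem.solid {f g : H × K → ℂ} (hf : Mem f) (h : ∀ s, ‖g s‖ ≤ ‖f s‖) : Mem g := by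
  intro ε hε
  obtain ⟨F, hF⟩ := hf ε hε
  exact ⟨F, fun S hS hd => (Finset.sum_le_sum fun x _ => h x).trans (hF S hS hd)⟩

theorem mem_zero : Mem (0 : H × K → ℂ) := by
  intro ε hε
  refine ⟨∅, fun S _ _ => ?_⟩
  simp [hε.le]

/-- The linear subspace. -/
def carrier (H K : Type) : Submodule ℂ (H × K → ℂ) where
  carrier := {f | Mem f}
  add_mem' := fun hf hg => Mem.add hf hg
  zero_mem' := mem_zero
  smul_mem' := fun c _ hf => Mem.smul hf c

theorem mem_carrier {f : H × K → ℂ} : f ∈ carrier H K ↔ Mem f := Iff.rfl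

theorem nrm_eq_zero {f : H × K → ℂ} (hf : Mem f) (h0 : nrm f = 0) : f = 0 := by
  ext x
  have := Mem.norm_le hf x
  rw [h0] at this
  exact norm_le_zero_iff.1 this

theorem nrm_smul (c : ℂ) {f : H × K → ℂ} (hf : Mem f) : nrm (c • f) = ‖c‖ * nrm f := by
  have key : ∀ (c : ℂ) (f : H × K → ℂ), Mem f → nrm (c • f) ≤ ‖c‖ * nrm f := by
    intro c f hf
    refine nrm_le fun S hS => ?_
    have h2 : ∑ x ∈ S, ‖(c • f) x‖ = ‖c‖ * ∑ x ∈ S, ‖f x‖ := by
      rw [Finset.mul_sum]
      refine Finset.sum_congr rfl fun x _ => ?_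
      rw [Pi.smul_apply, norm_smul]
    rw [h2]
    exact mul_le_mul_of_nonneg_left (hf.bd_nrm S hS) (norm_nonneg _)
  apply le_antisymm (key c f hf)
  rcases eq_or_ne c 0 with rfl | hc
  · rw [norm_zero, zero_mul]
    exact (Mem.smul hf 0).nrm_nonneg
  · have h1 := key c⁻¹ (c • f) (Mem.smul hf c)
    rw [smul_smul, inv_mul_cancel₀ hc, one_smul, norm_inv] at h1
    have hc' : 0 < ‖c‖ := norm_pos_iff.2 hc
    rwa [← mul_le_mul_iff_right₀ hc', ← mul_assoc, mul_inv_cancel₀ hc'.ne', one_mul] at h1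

theorem nrm_add {f g : H × K → ℂ} (hf : Mem f) (hg : Mem g) :
    nrm (f + g) ≤ nrm f + nrm g := by
  refine nrm_le fun S hS => ?_
  calc ∑ x ∈ S, ‖(f + g) x‖ ≤ ∑ x ∈ S, (‖f x‖ + ‖g x‖) :=
        Finset.sum_le_sum fun x _ => norm_add_le _ _
    _ = ∑ x ∈ S, ‖f x‖ + ∑ x ∈ S, ‖g x‖ := Finset.sum_add_distrib
    _ ≤ nrm f + nrm g := add_le_add (Mem.bd_nrm hf S hS) (Mem.bd_nrm hg S hS)

theorem nrm_complete : IsCompleteOn (carrier H K) nrm := by
  intro u hu hc
  have hsub : ∀ m n, Mem (u m - u n) := fun m n => by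
    have : u m - u n = u m + (-1 : ℂ) • u n := by
      rw [neg_smul, one_smul, sub_eq_add_neg]
    rw [this]
    exact Mem.add (hu m) (Mem.smul (hu n) _)
  have hpt : ∀ x, ∃ y, Tendsto (fun n => u n x) atTop (𝓝 y) := by
    intro x
    apply cauchySeq_tendsto_of_complete
    rw [Metric.cauchySeq_iff]
    intro ε hε
    obtain ⟨n₀, hn₀⟩ := hc ε hε
    refine ⟨n₀, fun m hm n hn => ?_⟩
    rw [dist_eq_norm]
    exact (Mem.norm_le (hsub m n) x).trans_lt (hn₀ m hm n hn)
  choose f hf using hpt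
  have hlim : ∀ ε : ℝ, 0 < ε → ∃ n₀, ∀ m, n₀ ≤ m → Bd (u m - f) ε := by
    intro ε hε
    obtain ⟨n₀, hn₀⟩ := hc ε hε
    refine ⟨n₀, fun m hm S hS => ?_⟩
    have h1 : Tendsto (fun n => ∑ x ∈ S, ‖(u m - u n) x‖) atTop
        (𝓝 (∑ x ∈ S, ‖(u m - f) x‖)) := by
      refine tendsto_finsetSum _ fun x _ => ?_
      exact (tendsto_const_nhds.sub (hf x)).norm
    refine le_of_tendsto h1 ?_
    filter_upwards [eventually_ge_atTop n₀] with n hn
    exact ((hsub m n).bd_nrm S hS).trans (hn₀ m hm n hn).le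
  have hfm : Mem f := by
    intro ε hε
    obtain ⟨n₀, hn₀⟩ := hlim (ε / 2) (by linarith)
    obtain ⟨F, hF⟩ := hu n₀ (ε / 2) (by linarith)
    refine ⟨F, fun S hS hd => ?_⟩
    have h1 := hn₀ n₀ le_rfl S hS
    have h2 := hF S hS hd
    calc ∑ x ∈ S, ‖f x‖ ≤ ∑ x ∈ S, (‖u n₀ x‖ + ‖(u n₀ - f) x‖) := by
          refine Finset.sum_le_sum fun x _ => ?_
          have : f x = u n₀ x - (u n₀ - f) x := by simp
          calc ‖f x‖ = ‖u n₀ x - (u n₀ - f) x‖ := by rw [← this]
            _ ≤ _ := norm_sub_le _ _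
      _ = ∑ x ∈ S, ‖u n₀ x‖ + ∑ x ∈ S, ‖(u n₀ - f) x‖ := Finset.sum_add_distrib
      _ ≤ ε := by linarith
  refine ⟨f, hfm, fun ε hε => ?_⟩
  obtain ⟨n₀, hn₀⟩ := hlim (ε / 2) (by linarith)
  refine ⟨n₀, fun n hn => ?_⟩
  exact (nrm_le (hn₀ n hn)).trans_lt (by linarith)

/-- `ℓ¹(H; c₀(K))` as a Banach function space on `H × K`. -/
noncomputable def space (H K : Type) : BFS (H × K) where
  E := carrier H K
  N := nrm
  isNorm := ⟨fun f hf h0 => nrm_eq_zero hf h0, fun c f hf => nrm_smul c hf,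
    fun f hf g hg => nrm_add hf hg⟩
  complete := nrm_complete
  solid := by
    intro f hf g hg
    refine ⟨Mem.solid hf hg, nrm_le fun S hS => ?_⟩
    exact (Finset.sum_le_sum fun x _ => hg x).trans (Mem.bd_nrm hf S hS)

end Space


/-! ### Translations -/

section Translations

variable {H K : Type}

theorem IsGraph.map {S : Finset (H × K)} (hS : IsGraph S) (τ : H × K ≃ H × K)
    (hτ : ∀ x y, (τ x).1 = (τ y).1 → x.1 = y.1) : IsGraph (S.map τ.toEmbedding) := by
  intro a ha b hb hab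
  obtain ⟨x, hx, rfl⟩ := Finset.mem_map.1 ha
  obtain ⟨y, hy, rfl⟩ := Finset.mem_map.1 hb
  rw [hS x hx y hy (hτ x y hab)]

theorem Mem.comp {f : H × K → ℂ} (hf : Mem f) (τ : H × K ≃ H × K)
    (hτ : ∀ x y, (τ x).1 = (τ y).1 → x.1 = y.1) : Mem (fun x => f (τ x)) := by
  intro ε hε
  obtain ⟨F, hF⟩ := hf ε hε
  refine ⟨F.map τ.symm.toEmbedding, fun S hS hd => ?_⟩
  have h1 := hF (S.map τ.toEmbedding) (hS.map τ hτ) (by
    rw [Finset.disjoint_left] at hd ⊢
    intro a ha haF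
    obtain ⟨x, hx, rfl⟩ := Finset.mem_map.1 ha
    refine hd hx (Finset.mem_map.2 ⟨τ x, haF, ?_⟩)
    simp)
  rw [Finset.sum_map] at h1
  exact h1

theorem Bd.comp {f : H × K → ℂ} {C : ℝ} (hf : Bd f C) (τ : H × K ≃ H × K)
    (hτ : ∀ x y, (τ x).1 = (τ y).1 → x.1 = y.1) : Bd (fun x => f (τ x)) C := by
  intro S hS
  have h1 := hf (S.map τ.toEmbedding) (hS.map τ hτ)
  rw [Finset.sum_map] at h1
  exact h1

theorem nrm_comp {f : H × K → ℂ} (hf : Mem f) (τ : H × K ≃ H × K)
    (hτ : ∀ x y, (τ x).1 = (τ y).1 ↔ x.1 = y.1) : nrm (fun x => f (τ x)) = nrm f := by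
  apply le_antisymm
  · exact nrm_le (hf.bd_nrm.comp τ fun x y => (hτ x y).1)
  · have h1 : Mem (fun x => f (τ x)) := hf.comp τ fun x y => (hτ x y).1
    have h2 := h1.bd_nrm.comp τ.symm (fun x y hxy => by
      have := (hτ (τ.symm x) (τ.symm y)).2 hxy
      simpa using this)
    have h3 : (fun x => f (τ (τ.symm x))) = f := by
      ext x
      simp
    have h4 := nrm_le h2
    rw [h3] at h4
    exact h4

variable [Group H] [Group K]

theorem isoInvariant : (space H K).IsoInvariant := by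
  intro t f hf
  have h1 : ∀ x y : H × K, (Equiv.mulRight t x).1 = (Equiv.mulRight t y).1 ↔ x.1 = y.1 := by
    intro x y
    simp
  have h2 : ∀ x y : H × K, (Equiv.mulLeft t⁻¹ x).1 = (Equiv.mulLeft t⁻¹ y).1 ↔ x.1 = y.1 := by
    intro x y
    simp
  refine ⟨⟨?_, ?_⟩, ⟨?_, ?_⟩⟩
  · exact Mem.comp hf (Equiv.mulRight t) fun x y => (h1 x y).1
  · exact nrm_comp hf (Equiv.mulRight t) h1
  · exact Mem.comp hf (Equiv.mulLeft t⁻¹) fun x y => (h2 x y).1
  · exact nrm_comp hf (Equiv.mulLeft t⁻¹) h2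

end Translations

/-! ### Summable functions -/

section Summable

variable {H K : Type}

theorem mem_of_summable {g : H × K → ℂ} (hg : Summable fun x => ‖g x‖) : Mem g := by
  intro ε hε
  have h1 := hg.hasSum
  obtain ⟨F, hF⟩ := (summable_iff_vanishing_norm.1 hg) ε hε
  refine ⟨F, fun S _ hd => ?_⟩
  have := hF S hd
  rw [Real.norm_of_nonneg (Finset.sum_nonneg fun _ _ => norm_nonneg _)] at this
  exact this.le

theorem nrm_le_tsum {g : H × K → ℂ} (hg : Summable fun x => ‖g x‖) : nrm g ≤ ∑' x, ‖g x‖ :=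
  nrm_le fun S _ => hg.sum_le_tsum S fun _ _ => norm_nonneg _

/-- Restriction to a finite set. -/
noncomputable def cut (F : Finset (H × K)) (f : H × K → ℂ) : H × K → ℂ := by
  classical
  exact fun x => if x ∈ F then f x else 0

theorem cut_mem (F : Finset (H × K)) (f : H × K → ℂ) {x : H × K} (hx : x ∈ F) :
    cut F f x = f x := by
  unfold cut
  exact if_pos hx

theorem cut_not_mem (F : Finset (H × K)) (f : H × K → ℂ) {x : H × K} (hx : x ∉ F) :
    cut F f x = 0 := by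
  unfold cut
  exact if_neg hx

/-- The basic functions. -/
noncomputable def dl (g : H × K) : H × K → ℂ := by
  classical
  exact fun x => if x = g then 1 else 0

theorem dl_self (g : H × K) : dl g g = 1 := by
  unfold dl
  exact if_pos rfl

theorem dl_ne {g x : H × K} (h : x ≠ g) : dl g x = 0 := by
  unfold dl
  exact if_neg h

theorem mem_of_finite (F : Finset (H × K)) {f : H × K → ℂ} (h : ∀ x, x ∉ F → f x = 0) :
    Mem f := by
  intro ε hε
  refine ⟨F, fun S _ hd => ?_⟩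
  rw [Finset.sum_eq_zero]
  · exact hε.le
  · intro x hx
    rw [h x (Finset.disjoint_left.1 hd hx), norm_zero]

theorem mem_dl (g : H × K) : Mem (dl g) := by
  refine mem_of_finite {g} fun x hx => ?_
  rw [Finset.mem_singleton] at hx
  exact dl_ne hx

theorem mem_cut (F : Finset (H × K)) (f : H × K → ℂ) : Mem (cut F f) :=
  mem_of_finite F fun _ hx => cut_not_mem F f hx

theorem cut_eq_sum (F : Finset (H × K)) (f : H × K → ℂ) : cut F f = ∑ g ∈ F, f g • dl g := by
  classical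
  ext x
  rw [Finset.sum_apply]
  by_cases hx : x ∈ F
  · rw [cut_mem F f hx, Finset.sum_eq_single x]
    · rw [Pi.smul_apply, dl_self, smul_eq_mul, mul_one]
    · intro b _ hb
      rw [Pi.smul_apply, dl_ne hb.symm, smul_zero]
    · intro h
      exact absurd hx h
  · rw [cut_not_mem F f hx, Finset.sum_eq_zero]
    intro b hb
    have : x ≠ b := by
      rintro rfl
      exact hx hb
    rw [Pi.smul_apply, dl_ne this, smul_zero]

/-- Elements of the space are approximated by their finite restrictions. -/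
theorem Mem.approx {f : H × K → ℂ} (hf : Mem f) (ε : ℝ) (hε : 0 < ε) :
    ∃ F : Finset (H × K), nrm (f - cut F f) ≤ ε := by
  classical
  obtain ⟨F, hF⟩ := hf ε hε
  refine ⟨F, nrm_le fun S hS => ?_⟩
  have h1 := hF (S \ F) (hS.subset Finset.sdiff_subset) Finset.sdiff_disjoint
  rw [← Finset.sum_inter_add_sum_sdiff S F]
  have h2 : ∑ x ∈ S ∩ F, ‖(f - cut F f) x‖ = 0 := by
    refine Finset.sum_eq_zero fun x hx => ?_
    rw [Pi.sub_apply, cut_mem F f (Finset.mem_inter.1 hx).2, sub_self, norm_zero]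
  have h3 : ∑ x ∈ S \ F, ‖(f - cut F f) x‖ = ∑ x ∈ S \ F, ‖f x‖ := by
    refine Finset.sum_congr rfl fun x hx => ?_
    rw [Pi.sub_apply, cut_not_mem F f (Finset.mem_sdiff.1 hx).2, sub_zero]
  rw [h2, h3, zero_add]
  exact h1

end Summable

/-! ### Convolution operators by summable functions -/

section Conv

variable {H K : Type} [Group H] [Group K]

theorem summable_conv {ψ : H × K → ℂ} (hψ : Summable fun y => ‖ψ y‖) {f : H × K → ℂ}
    (hf : Mem f) (x : H × K) : Summable fun y => ψ y * f (y⁻¹ * x) := by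
  refine Summable.of_norm_bounded (g := fun y => ‖ψ y‖ * nrm f) (hψ.mul_right _) fun y => ?_
  rw [norm_mul]
  exact mul_le_mul_of_nonneg_left (hf.norm_le _) (norm_nonneg _)

/-- Convolution. -/
noncomputable def conv (ψ f : H × K → ℂ) : H × K → ℂ := fun x => ∑' y, ψ y * f (y⁻¹ * x)

theorem norm_conv_sum {ψ : H × K → ℂ} (hψ : Summable fun y => ‖ψ y‖) {f : H × K → ℂ}
    (hf : Mem f) (S : Finset (H × K)) :
    ∑ x ∈ S, ‖conv ψ f x‖ ≤ ∑' y, ‖ψ y‖ * ∑ x ∈ S, ‖f (y⁻¹ * x)‖ := by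
  have h0 : ∀ x, Summable fun y => ‖ψ y‖ * ‖f (y⁻¹ * x)‖ := fun x => by
    have := (summable_conv hψ hf x).norm
    simpa [norm_mul] using this
  calc ∑ x ∈ S, ‖conv ψ f x‖ ≤ ∑ x ∈ S, ∑' y, ‖ψ y‖ * ‖f (y⁻¹ * x)‖ := by
        refine Finset.sum_le_sum fun x _ => ?_
        have := norm_tsum_le_tsum_norm (summable_conv hψ hf x).norm
        simp only [norm_mul] at this
        exact this
    _ = ∑' y, ∑ x ∈ S, ‖ψ y‖ * ‖f (y⁻¹ * x)‖ := by
        rw [Summable.tsum_finsetSum fun x _ => h0 x]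
    _ = ∑' y, ‖ψ y‖ * ∑ x ∈ S, ‖f (y⁻¹ * x)‖ := by
        refine tsum_congr fun y => ?_
        rw [Finset.mul_sum]

theorem summable_aux {ψ : H × K → ℂ} (hψ : Summable fun y => ‖ψ y‖) {f : H × K → ℂ}
    (hf : Mem f) (S : Finset (H × K)) :
    Summable fun y => ‖ψ y‖ * ∑ x ∈ S, ‖f (y⁻¹ * x)‖ := by
  have : (fun y => ‖ψ y‖ * ∑ x ∈ S, ‖f (y⁻¹ * x)‖) =
      fun y => ∑ x ∈ S, ‖ψ y * f (y⁻¹ * x)‖ := by
    ext y
    rw [Finset.mul_sum]
    simp
  rw [this]
  exact summable_sum fun x _ => (summable_conv hψ hf x).norm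

theorem left_bd {f : H × K → ℂ} (hf : Mem f) (y : H × K) {S : Finset (H × K)} (hS : IsGraph S) :
    ∑ x ∈ S, ‖f (y⁻¹ * x)‖ ≤ nrm f := by
  have h2 : ∀ x z : H × K, (Equiv.mulLeft y⁻¹ x).1 = (Equiv.mulLeft y⁻¹ z).1 → x.1 = z.1 := by
    intro x z
    simp
  exact hf.bd_nrm.comp (Equiv.mulLeft y⁻¹) h2 S hS

theorem bd_conv {ψ : H × K → ℂ} (hψ : Summable fun y => ‖ψ y‖) {f : H × K → ℂ}
    (hf : Mem f) : Bd (conv ψ f) ((∑' y, ‖ψ y‖) * nrm f) := by
  intro S hS
  refine (norm_conv_sum hψ hf S).trans ?_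
  rw [← tsum_mul_right]
  refine Summable.tsum_le_tsum (fun y => ?_) (summable_aux hψ hf S) (hψ.mul_right _)
  exact mul_le_mul_of_nonneg_left (left_bd hf y hS) (norm_nonneg _)

theorem mem_conv {ψ : H × K → ℂ} (hψ : Summable fun y => ‖ψ y‖) {f : H × K → ℂ}
    (hf : Mem f) : Mem (conv ψ f) := by
  classical
  intro ε hε
  have hM := hf.nrm_nonneg
  have hP : 0 ≤ ∑' y, ‖ψ y‖ := tsum_nonneg fun _ => norm_nonneg _
  -- tail of `ψ`
  obtain ⟨Y, hY⟩ := (summable_iff_vanishing_norm.1 hψ) (ε / 2 / (nrm f + 1)) (by positivity)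
  obtain ⟨F₀, hF₀⟩ := hf (ε / 2 / ((∑' y, ‖ψ y‖) + 1)) (by positivity)
  refine ⟨Y.biUnion fun y => F₀.image fun z => y * z, fun S hS hd => ?_⟩
  refine (norm_conv_sum hψ hf S).trans ?_
  have hsum := summable_aux hψ hf S
  -- bound every finite partial sum
  refine hsum.tsum_le_of_sum_le fun Z => ?_
  rw [← Finset.sum_inter_add_sum_sdiff Z Y]
  have h1 : ∑ y ∈ Z ∩ Y, ‖ψ y‖ * ∑ x ∈ S, ‖f (y⁻¹ * x)‖ ≤ ε / 2 := by
    calc ∑ y ∈ Z ∩ Y, ‖ψ y‖ * ∑ x ∈ S, ‖f (y⁻¹ * x)‖
        ≤ ∑ y ∈ Z ∩ Y, ‖ψ y‖ * (ε / 2 / ((∑' y, ‖ψ y‖) + 1)) := by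
          refine Finset.sum_le_sum fun y hy => ?_
          refine mul_le_mul_of_nonneg_left ?_ (norm_nonneg _)
          have hyY := (Finset.mem_inter.1 hy).2
          have h2 : ∀ x z : H × K, (Equiv.mulLeft y⁻¹ x).1 = (Equiv.mulLeft y⁻¹ z).1 →
              x.1 = z.1 := by
            intro x z
            simp
          have h3 := hF₀ (S.map (Equiv.mulLeft y⁻¹).toEmbedding) (hS.map _ h2) (by
            rw [Finset.disjoint_left] at hd ⊢
            intro a ha haF
            obtain ⟨x, hx, rfl⟩ := Finset.mem_map.1 ha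
            refine hd hx (Finset.mem_biUnion.2 ⟨y, hyY, Finset.mem_image.2 ⟨_, haF, ?_⟩⟩)
            simp)
          rw [Finset.sum_map] at h3
          exact h3
      _ = (∑ y ∈ Z ∩ Y, ‖ψ y‖) * (ε / 2 / ((∑' y, ‖ψ y‖) + 1)) := by rw [Finset.sum_mul]
      _ ≤ ((∑' y, ‖ψ y‖) + 1) * (ε / 2 / ((∑' y, ‖ψ y‖) + 1)) := by
          refine mul_le_mul_of_nonneg_right ?_ (by positivity)
          have := hψ.sum_le_tsum (Z ∩ Y) fun _ _ => norm_nonneg _
          linarith
      _ = ε / 2 := by field_simp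
  have h2 : ∑ y ∈ Z \ Y, ‖ψ y‖ * ∑ x ∈ S, ‖f (y⁻¹ * x)‖ ≤ ε / 2 := by
    calc ∑ y ∈ Z \ Y, ‖ψ y‖ * ∑ x ∈ S, ‖f (y⁻¹ * x)‖
        ≤ ∑ y ∈ Z \ Y, ‖ψ y‖ * nrm f :=
          Finset.sum_le_sum fun y _ => mul_le_mul_of_nonneg_left (left_bd hf y hS) (norm_nonneg _)
      _ = (∑ y ∈ Z \ Y, ‖ψ y‖) * nrm f := by rw [Finset.sum_mul]
      _ ≤ (ε / 2 / (nrm f + 1)) * (nrm f + 1) := by
          have h4 := hY (Z \ Y) Finset.sdiff_disjoint
          rw [Real.norm_of_nonneg (Finset.sum_nonneg fun _ _ => norm_nonneg _)] at h4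
          exact mul_le_mul h4.le (by linarith) hM (by positivity)
      _ = ε / 2 := by field_simp
  linarith

/-- Convolution by a summable function, as an operator. -/
noncomputable def convOp (ψ : H × K → ℂ) (hψ : Summable fun y => ‖ψ y‖) :
    (space H K).E →ₗ[ℂ] (space H K).E where
  toFun f := ⟨conv ψ f, mem_conv hψ f.2⟩
  map_add' f g := by
    apply Subtype.ext
    funext x
    show ∑' y, ψ y * ((f : H × K → ℂ) (y⁻¹ * x) + (g : H × K → ℂ) (y⁻¹ * x)) =
      ∑' y, ψ y * (f : H × K → ℂ) (y⁻¹ * x) + ∑' y, ψ y * (g : H × K → ℂ) (y⁻¹ * x)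
    rw [← (summable_conv hψ f.2 x).tsum_add (summable_conv hψ g.2 x)]
    refine tsum_congr fun y => ?_
    ring
  map_smul' c f := by
    apply Subtype.ext
    funext x
    show ∑' y, ψ y * (c * (f : H × K → ℂ) (y⁻¹ * x)) =
      c * ∑' y, ψ y * (f : H × K → ℂ) (y⁻¹ * x)
    rw [← tsum_mul_left]
    refine tsum_congr fun y => ?_
    ring

theorem convOp_apply (ψ : H × K → ℂ) (hψ : Summable fun y => ‖ψ y‖) (f : (space H K).E) :
    (convOp ψ hψ f : H × K → ℂ) = conv ψ f := rfl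

theorem convOp_pos (ψ : H × K → ℂ) (hψ : Summable fun y => ‖ψ y‖) (h0 : ∀ y, 0 ≤ ψ y) :
    (space H K).IsPos (convOp ψ hψ) := by
  intro f hf x
  rw [convOp_apply]
  refine tsum_nonneg fun y => ?_
  exact mul_nonneg (h0 y) (hf _)

/-- Convolution by any summable function is regular. -/
theorem convOp_regular (φ : H × K → ℂ) (hφ : Summable fun y => ‖φ y‖) :
    (space H K).IsRegular (convOp φ hφ) := by
  -- the four parts
  have aux : ∀ r : H × K → ℝ, (∀ y, |r y| ≤ ‖φ y‖) →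
      Summable fun y => ‖((max (r y) 0 : ℝ) : ℂ)‖ := by
    intro r hr
    refine Summable.of_nonneg_of_le (fun _ => norm_nonneg _) (fun y => ?_) hφ
    rw [Complex.norm_real, Real.norm_eq_abs, abs_of_nonneg (le_max_right _ _)]
    exact (max_le ((le_abs_self _).trans (hr y)) (norm_nonneg _))
  have a1 := aux (fun y => (φ y).re) fun y => Complex.abs_re_le_norm _
  have a2 := aux (fun y => -(φ y).re) fun y => by
    rw [abs_neg]; exact Complex.abs_re_le_norm _
  have a3 := aux (fun y => (φ y).im) fun y => Complex.abs_im_le_norm _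
  have a4 := aux (fun y => -(φ y).im) fun y => by
    rw [abs_neg]; exact Complex.abs_im_le_norm _
  have hpos : ∀ (r : H × K → ℝ) (h : Summable fun y => ‖((max (r y) 0 : ℝ) : ℂ)‖),
      (space H K).IsPos (convOp (fun y => ((max (r y) 0 : ℝ) : ℂ)) h) := by
    intro r h
    refine convOp_pos _ h fun y => ?_
    exact_mod_cast le_max_right _ _
  have hdec : convOp φ hφ = (1 : ℂ) • convOp _ a1 + (-1 : ℂ) • convOp _ a2 +
      Complex.I • convOp _ a3 + (-Complex.I) • convOp _ a4 := by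
    apply LinearMap.ext
    intro f
    apply Subtype.ext
    funext x
    show ∑' y, φ y * (f : H × K → ℂ) (y⁻¹ * x) =
      1 * ∑' y, ((max ((φ y).re) 0 : ℝ) : ℂ) * (f : H × K → ℂ) (y⁻¹ * x) +
      (-1) * ∑' y, ((max (-(φ y).re) 0 : ℝ) : ℂ) * (f : H × K → ℂ) (y⁻¹ * x) +
      Complex.I * ∑' y, ((max ((φ y).im) 0 : ℝ) : ℂ) * (f : H × K → ℂ) (y⁻¹ * x) +
      (-Complex.I) * ∑' y, ((max (-(φ y).im) 0 : ℝ) : ℂ) * (f : H × K → ℂ) (y⁻¹ * x)
    rw [← tsum_mul_left, ← tsum_mul_left, ← tsum_mul_left, ← tsum_mul_left]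
    have b1 := (summable_conv a1 f.2 x).mul_left (1 : ℂ)
    have b2 := (summable_conv a2 f.2 x).mul_left (-1 : ℂ)
    have b3 := (summable_conv a3 f.2 x).mul_left Complex.I
    have b4 := (summable_conv a4 f.2 x).mul_left (-Complex.I)
    rw [← b1.tsum_add b2, ← (b1.add b2).tsum_add b3, ← ((b1.add b2).add b3).tsum_add b4]
    refine tsum_congr fun y => ?_
    have hre : ((max ((φ y).re) 0 : ℝ) : ℂ) - ((max (-(φ y).re) 0 : ℝ) : ℂ) = ((φ y).re : ℂ) := by
      rw [← Complex.ofReal_sub]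
      congr 1
      rcases le_total 0 (φ y).re with h | h
      · rw [max_eq_left h, max_eq_right (by linarith)]; ring
      · rw [max_eq_right h, max_eq_left (by linarith)]; ring
    have him : ((max ((φ y).im) 0 : ℝ) : ℂ) - ((max (-(φ y).im) 0 : ℝ) : ℂ) = ((φ y).im : ℂ) := by
      rw [← Complex.ofReal_sub]
      congr 1
      rcases le_total 0 (φ y).im with h | h
      · rw [max_eq_left h, max_eq_right (by linarith)]; ring
      · rw [max_eq_right h, max_eq_left (by linarith)]; ring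
    have hφy : φ y = ((φ y).re : ℂ) + ((φ y).im : ℂ) * Complex.I := (Complex.re_add_im _).symm
    calc φ y * (f : H × K → ℂ) (y⁻¹ * x)
        = (((φ y).re : ℂ) + ((φ y).im : ℂ) * Complex.I) * (f : H × K → ℂ) (y⁻¹ * x) := by
          rw [← hφy]
      _ = _ := by
          rw [← hre, ← him]
          ring
  rw [hdec]
  unfold BFS.IsRegular
  have hs : ∀ (r : H × K → ℝ) (h : Summable fun y => ‖((max (r y) 0 : ℝ) : ℂ)‖) (c : ℂ),
      c • convOp (fun y => ((max (r y) 0 : ℝ) : ℂ)) h ∈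
        Submodule.span ℂ {P : (space H K).E →ₗ[ℂ] (space H K).E | (space H K).IsPos P} :=
    fun r h c => Submodule.smul_mem _ c (Submodule.subset_span (hpos r h))
  exact Submodule.add_mem _ (Submodule.add_mem _ (Submodule.add_mem _ (hs _ a1 1) (hs _ a2 (-1)))
    (hs _ a3 Complex.I)) (hs _ a4 (-Complex.I))

end Conv


/-! ### Bounded operators commuting with right translations are convolutions by summable functions -/

section Commuting

variable {H K : Type} [Group H] [Group K]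

omit [Group H] in
theorem choose_far [Infinite K] (D : Finset K) (M : Finset H) :
    ∃ x : H → K, ∀ h ∈ M, ∀ h' ∈ M, h ≠ h' → x h * (x h')⁻¹ ∉ D := by
  classical
  induction M using Finset.induction_on with
  | empty => exact ⟨fun _ => 1, fun h hh => absurd hh (Finset.notMem_empty h)⟩
  | insert a M ha ih =>
    obtain ⟨x, hx⟩ := ih
    obtain ⟨z, hz⟩ := Infinite.exists_notMem_finset
      (M.biUnion fun h' => D.image (fun d => d * x h') ∪ D.image (fun d => d⁻¹ * x h'))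
    have hz1 : ∀ h' ∈ M, z * (x h')⁻¹ ∉ D := by
      intro h' hh' hmem
      apply hz
      refine Finset.mem_biUnion.2 ⟨h', hh', Finset.mem_union_left _ ?_⟩
      exact Finset.mem_image.2 ⟨_, hmem, by simp⟩
    have hz2 : ∀ h' ∈ M, x h' * z⁻¹ ∉ D := by
      intro h' hh' hmem
      apply hz
      refine Finset.mem_biUnion.2 ⟨h', hh', Finset.mem_union_right _ ?_⟩
      exact Finset.mem_image.2 ⟨_, hmem, by simp⟩
    refine ⟨Function.update x a z, fun h hh h' hh' hne => ?_⟩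
    rcases Finset.mem_insert.1 hh with rfl | hhM
    · rcases Finset.mem_insert.1 hh' with rfl | hhM'
      · exact absurd rfl hne
      · rw [Function.update_self, Function.update_of_ne (Ne.symm hne)]
        exact hz1 h' hhM'
    · rcases Finset.mem_insert.1 hh' with rfl | hhM'
      · rw [Function.update_self, Function.update_of_ne hne]
        exact hz2 h hhM
      · have h1 : h ≠ a := fun h => ha (h ▸ hhM)
        have h2 : h' ≠ a := fun h => ha (h ▸ hhM')
        rw [Function.update_of_ne h1, Function.update_of_ne h2]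
        exact hx h hhM h' hhM' hne

omit [Group H] [Group K] in
theorem bd_slice (h₀ : H) (f : H × K → ℂ) (C : ℝ) (hC0 : 0 ≤ C)
    (hf0 : ∀ x : H × K, x.1 ≠ h₀ → f x = 0) (hC : ∀ x, ‖f x‖ ≤ C) : Bd f C := by
  classical
  intro S hS
  have h1 : ∑ x ∈ S, ‖f x‖ = ∑ x ∈ S.filter (fun x => x.1 = h₀), ‖f x‖ := by
    rw [Finset.sum_filter]
    refine Finset.sum_congr rfl fun x _ => ?_
    split_ifs with h
    · rfl
    · rw [hf0 x h, norm_zero]
  have h2 : (S.filter (fun x => x.1 = h₀)).card ≤ 1 := by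
    rw [Finset.card_le_one]
    intro a ha b hb
    rw [Finset.mem_filter] at ha hb
    exact hS a ha.1 b hb.1 (ha.2.trans hb.2.symm)
  rw [h1]
  calc ∑ x ∈ S.filter (fun x => x.1 = h₀), ‖f x‖
      ≤ (S.filter (fun x => x.1 = h₀)).card • C := Finset.sum_le_card_nsmul _ _ _ fun x _ => hC x
    _ ≤ 1 • C := by
        rw [nsmul_eq_mul, nsmul_eq_mul]
        exact mul_le_mul_of_nonneg_right (by exact_mod_cast h2) hC0
    _ = C := one_smul _ _

variable (T : (space H K).E →ₗ[ℂ] (space H K).E)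

/-- The basic functions as elements of the space. -/
noncomputable def dE (g : H × K) : (space H K).E := ⟨dl g, mem_dl g⟩

theorem T_dE (hT : (space H K).CommutesRight T) (g s : H × K) :
    (T (dE g) : H × K → ℂ) s = (T (dE 1) : H × K → ℂ) (s * g⁻¹) := by
  refine hT g⁻¹ (dE 1) (dE g) (fun s => ?_) s
  show dl g s = dl 1 (s * g⁻¹)
  by_cases h : s = g
  · rw [h, dl_self, mul_inv_cancel, dl_self]
  · rw [dl_ne h, dl_ne]
    intro h'
    exact h (mul_inv_eq_one.1 h')

theorem phi_sum_le [Infinite K] (hT : (space H K).CommutesRight T) (C : ℝ) (hC0 : 0 ≤ C)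
    (hC : ∀ f : (space H K).E, nrm (T f : H × K → ℂ) ≤ C * nrm (f : H × K → ℂ))
    (F : Finset (H × K)) (ε : ℝ) (hε : 0 < ε) :
    ∑ p ∈ F, ‖(T (dE 1) : H × K → ℂ) p‖ ≤ C + F.card * (F.card * ε) := by
  classical
  set φ : H × K → ℂ := (T (dE 1) : H × K → ℂ) with hφ
  have hφm : Mem φ := (T (dE 1)).2
  obtain ⟨Φ, hΦ⟩ := hφm ε hε
  have hΦ' : ∀ z, z ∉ Φ → ‖φ z‖ ≤ ε := by
    intro z hz
    have := hΦ {z} (isGraph_singleton z) (by simpa using hz)
    simpa using this
  set M := F.image Prod.fst with hM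
  set P := F.image Prod.snd with hP
  set D : Finset K := ((Φ.image Prod.snd) ×ˢ P).image (fun q => q.1 * q.2⁻¹) ∪
    (P ×ˢ P).image (fun q => q.1 * q.2⁻¹) with hD
  obtain ⟨x, hx⟩ := choose_far D M
  set c : H × K → ℂ := fun p => (starRingEnd ℂ) (φ p) / (‖φ p‖ : ℂ) with hc
  have hc1 : ∀ p, ‖c p‖ ≤ 1 := by
    intro p
    show ‖(starRingEnd ℂ) (φ p) / (‖φ p‖ : ℂ)‖ ≤ 1
    rw [norm_div, RCLike.norm_conj, Complex.norm_real, norm_norm]
    exact div_self_le_one _
  have hc2 : ∀ p, c p * φ p = (‖φ p‖ : ℂ) := by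
    intro p
    show (starRingEnd ℂ) (φ p) / (‖φ p‖ : ℂ) * φ p = _
    rcases eq_or_ne (φ p) 0 with h | h
    · rw [h]; simp
    · have hne : (‖φ p‖ : ℂ) ≠ 0 := by
        rw [Complex.ofReal_ne_zero]
        exact norm_ne_zero_iff.2 h
      rw [div_mul_eq_mul_div, mul_comm ((starRingEnd ℂ) (φ p)), Complex.mul_conj,
        Complex.normSq_eq_norm_sq, div_eq_iff hne]
      push_cast
      ring
  -- the test function
  set pos : H × K → H × K := fun p => (1, p.2⁻¹ * x p.1) with hpos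
  set f : (space H K).E := ∑ p ∈ F, c p • dE (pos p) with hf
  have hfval : ∀ y, (f : H × K → ℂ) y = ∑ p ∈ F, c p * dl (pos p) y := by
    intro y
    rw [hf]
    have : ((∑ p ∈ F, c p • dE (pos p) : (space H K).E) : H × K → ℂ) =
        ∑ p ∈ F, c p • dl (pos p) := by
      rw [Submodule.coe_sum]
      rfl
    rw [this, Finset.sum_apply]
    rfl
  have hinj : ∀ p ∈ F, ∀ q ∈ F, pos p = pos q → p = q := by
    intro p hp q hq hpq
    have h2 : p.2⁻¹ * x p.1 = q.2⁻¹ * x q.1 := congrArg Prod.snd hpq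
    by_cases h1 : p.1 = q.1
    · rw [h1] at h2
      have h3 : p.2 = q.2 := inv_injective (mul_right_cancel h2)
      exact Prod.ext h1 h3
    · exfalso
      refine hx p.1 (Finset.mem_image_of_mem _ hp) q.1 (Finset.mem_image_of_mem _ hq) h1 ?_
      have h4 : x p.1 * (x q.1)⁻¹ = p.2 * q.2⁻¹ := by
        rw [mul_inv_eq_iff_eq_mul]
        rw [inv_mul_eq_iff_eq_mul] at h2
        rw [h2]
        group
      rw [h4, hD]
      refine Finset.mem_union_right _ (Finset.mem_image.2 ⟨(p.2, q.2), ?_, rfl⟩)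
      exact Finset.mem_product.2 ⟨Finset.mem_image_of_mem _ hp, Finset.mem_image_of_mem _ hq⟩
  have hfnorm : nrm (f : H × K → ℂ) ≤ 1 := by
    refine nrm_le (bd_slice 1 _ 1 zero_le_one ?_ ?_)
    · intro y hy
      rw [hfval]
      refine Finset.sum_eq_zero fun p _ => ?_
      rw [dl_ne, mul_zero]
      rintro rfl
      exact hy rfl
    · intro y
      rw [hfval]
      by_cases hy : ∃ p ∈ F, pos p = y
      · obtain ⟨p, hp, hpy⟩ := hy
        rw [Finset.sum_eq_single p]
        · rw [← hpy, dl_self, mul_one]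
          exact hc1 p
        · intro q hq hqp
          rw [dl_ne, mul_zero]
          intro h
          exact hqp (hinj q hq p hp (h.symm.trans hpy.symm))
        · intro h
          exact absurd hp h
      · push Not at hy
        rw [Finset.sum_eq_zero, norm_zero]
        · exact zero_le_one
        · intro p hp
          rw [dl_ne, mul_zero]
          intro h
          exact hy p hp h.symm
  have hTf : ∀ s, (T f : H × K → ℂ) s = ∑ p ∈ F, c p * φ (s * (pos p)⁻¹) := by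
    intro s
    have h1 : T f = ∑ p ∈ F, c p • T (dE (pos p)) := by
      rw [hf, map_sum]
      simp
    rw [h1]
    have h2 : ((∑ p ∈ F, c p • T (dE (pos p)) : (space H K).E) : H × K → ℂ) =
        ∑ p ∈ F, c p • (T (dE (pos p)) : H × K → ℂ) := by
      rw [Submodule.coe_sum]
      rfl
    rw [h2, Finset.sum_apply]
    refine Finset.sum_congr rfl fun p _ => ?_
    rw [Pi.smul_apply, smul_eq_mul, T_dE T hT]
  -- lower bound at the points `(h, x h)`
  have hlow : ∀ h ∈ M, ∑ p ∈ F.filter (fun p => p.1 = h), ‖φ p‖ - F.card * ε ≤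
      ‖(T f : H × K → ℂ) (h, x h)‖ := by
    intro h hh
    rw [hTf, ← Finset.sum_filter_add_sum_filter_not F (fun p => p.1 = h)]
    have h1 : ∑ p ∈ F.filter (fun p => p.1 = h), c p * φ ((h, x h) * (pos p)⁻¹) =
        ((∑ p ∈ F.filter (fun p => p.1 = h), ‖φ p‖ : ℝ) : ℂ) := by
      push_cast
      refine Finset.sum_congr rfl fun p hp => ?_
      rw [Finset.mem_filter] at hp
      have : (h, x h) * (pos p)⁻¹ = p := by
        rw [← hp.2]
        refine Prod.ext ?_ ?_
        · show p.1 * (1 : H)⁻¹ = p.1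
          simp
        · show x p.1 * (p.2⁻¹ * x p.1)⁻¹ = p.2
          group
      rw [this, hc2]
    have h2 : ‖∑ p ∈ F.filter (fun p => ¬ p.1 = h), c p * φ ((h, x h) * (pos p)⁻¹)‖ ≤
        F.card * ε := by
      calc ‖∑ p ∈ F.filter (fun p => ¬ p.1 = h), c p * φ ((h, x h) * (pos p)⁻¹)‖
          ≤ ∑ p ∈ F.filter (fun p => ¬ p.1 = h), ‖c p * φ ((h, x h) * (pos p)⁻¹)‖ :=
            norm_sum_le _ _
        _ ≤ ∑ p ∈ F.filter (fun p => ¬ p.1 = h), ε := by
            refine Finset.sum_le_sum fun p hp => ?_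
            rw [Finset.mem_filter] at hp
            rw [norm_mul]
            have h3 : (h, x h) * (pos p)⁻¹ ∉ Φ := by
              intro hmem
              refine hx h hh p.1 (Finset.mem_image_of_mem _ hp.1) (Ne.symm hp.2) ?_
              rw [hD]
              refine Finset.mem_union_left _ (Finset.mem_image.2
                ⟨(((h, x h) * (pos p)⁻¹).2, p.2), ?_, ?_⟩)
              · exact Finset.mem_product.2 ⟨Finset.mem_image_of_mem _ hmem,
                  Finset.mem_image_of_mem _ hp.1⟩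
              · show x h * (p.2⁻¹ * x p.1)⁻¹ * p.2⁻¹ = x h * (x p.1)⁻¹
                group
            calc ‖c p‖ * ‖φ ((h, x h) * (pos p)⁻¹)‖ ≤ 1 * ε :=
                  mul_le_mul (hc1 p) (hΦ' _ h3) (norm_nonneg _) zero_le_one
              _ = ε := one_mul ε
        _ = (F.filter (fun p => ¬ p.1 = h)).card * ε := by
            rw [Finset.sum_const, nsmul_eq_mul]
        _ ≤ F.card * ε := by
            refine mul_le_mul_of_nonneg_right ?_ hε.le
            exact_mod_cast Finset.card_le_card (Finset.filter_subset _ _)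
    rw [h1]
    have h3 : (∑ p ∈ F.filter (fun p => p.1 = h), ‖φ p‖) ≤
        ‖((∑ p ∈ F.filter (fun p => p.1 = h), ‖φ p‖ : ℝ) : ℂ)‖ := by
      rw [Complex.norm_real]
      exact le_abs_self _
    have h4 := norm_sub_norm_le ((∑ p ∈ F.filter (fun p => p.1 = h), ‖φ p‖ : ℝ) : ℂ)
      (-∑ p ∈ F.filter (fun p => ¬ p.1 = h), c p * φ ((h, x h) * (pos p)⁻¹))
    rw [sub_neg_eq_add, norm_neg] at h4
    linarith
  have hgraph : IsGraph (M.image fun h => (h, x h)) := by
    intro a ha b hb hab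
    obtain ⟨h, -, rfl⟩ := Finset.mem_image.1 ha
    obtain ⟨h', -, rfl⟩ := Finset.mem_image.1 hb
    have : h = h' := hab
    rw [this]
  have hup : ∑ h ∈ M, ‖(T f : H × K → ℂ) (h, x h)‖ ≤ C := by
    have h1 := Mem.bd_nrm (T f).2 _ hgraph
    rw [Finset.sum_image (fun a _ b _ hab => congrArg Prod.fst hab)] at h1
    calc ∑ h ∈ M, ‖(T f : H × K → ℂ) (h, x h)‖ ≤ nrm (T f : H × K → ℂ) := h1
      _ ≤ C * nrm (f : H × K → ℂ) := hC f
      _ ≤ C * 1 := mul_le_mul_of_nonneg_left hfnorm hC0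
      _ = C := mul_one C
  have hsum : ∑ p ∈ F, ‖φ p‖ = ∑ h ∈ M, ∑ p ∈ F.filter (fun p => p.1 = h), ‖φ p‖ := by
    exact (Finset.sum_fiberwise_of_maps_to
      (fun p hp => Finset.mem_image_of_mem Prod.fst hp) fun p => ‖φ p‖).symm
  rw [hsum]
  have h5 := Finset.sum_le_sum hlow
  rw [Finset.sum_sub_distrib, Finset.sum_const, nsmul_eq_mul] at h5
  have h6 : (M.card : ℝ) ≤ F.card := by
    rw [hM]
    exact_mod_cast Finset.card_image_le
  have h7 : (M.card : ℝ) * (F.card * ε) ≤ F.card * (F.card * ε) :=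
    mul_le_mul_of_nonneg_right h6 (by positivity)
  linarith

theorem phi_summable [Infinite K] (hT : (space H K).CommutesRight T) (C : ℝ) (hC0 : 0 ≤ C)
    (hC : ∀ f : (space H K).E, nrm (T f : H × K → ℂ) ≤ C * nrm (f : H × K → ℂ)) :
    Summable fun p => ‖(T (dE 1) : H × K → ℂ) p‖ := by
  refine summable_of_sum_le (c := C) (fun _ => norm_nonneg _) fun F => ?_
  refine le_of_forall_pos_le_add fun η hη => ?_
  have h1 := phi_sum_le T hT C hC0 hC F (η / (F.card * F.card + 1))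
    (by positivity)
  refine h1.trans ?_
  have h2 : (F.card : ℝ) * (F.card * (η / (F.card * F.card + 1))) ≤ η := by
    rw [← mul_assoc, mul_div_assoc', div_le_iff₀ (by positivity)]
    nlinarith [hη]
  linarith

theorem commuting_regular [Infinite K] (hb : (space H K).IsBdd T)
    (hT : (space H K).CommutesRight T) : (space H K).IsRegular T := by
  classical
  obtain ⟨C₁, hC₁⟩ := hb
  set C := max C₁ 0 with hCdef
  have hC0 : 0 ≤ C := le_max_right _ _
  have hC : ∀ f : (space H K).E, nrm (T f : H × K → ℂ) ≤ C * nrm (f : H × K → ℂ) := fun f =>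
    (hC₁ f).trans (mul_le_mul_of_nonneg_right (le_max_left _ _) (Mem.nrm_nonneg f.2))
  have hs := phi_summable T hT C hC0 hC
  set φ : H × K → ℂ := (T (dE 1) : H × K → ℂ) with hφ
  have heq : T = convOp φ hs := by
    have hd : ∀ g, T (dE g) = convOp φ hs (dE g) := by
      intro g
      apply Subtype.ext
      funext s
      rw [T_dE T hT, convOp_apply]
      show φ (s * g⁻¹) = ∑' y, φ y * dl g (y⁻¹ * s)
      rw [tsum_eq_single (s * g⁻¹)]
      · have : (s * g⁻¹)⁻¹ * s = g := by group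
        rw [this, dl_self, mul_one]
      · intro y hy
        rw [dl_ne, mul_zero]
        intro h
        apply hy
        rw [← h]
        group
    have hcut : ∀ (F : Finset (H × K)) (f : (space H K).E),
        T ⟨cut F f, mem_cut F f⟩ = convOp φ hs ⟨cut F f, mem_cut F f⟩ := by
      intro F f
      have h1 : (⟨cut F f, mem_cut F f⟩ : (space H K).E) =
          ∑ g ∈ F, (f : H × K → ℂ) g • dE g := by
        apply Subtype.ext
        rw [Submodule.coe_sum]
        exact cut_eq_sum F f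
      rw [h1, map_sum, map_sum]
      refine Finset.sum_congr rfl fun g _ => ?_
      rw [map_smul, map_smul, hd]
    apply LinearMap.ext
    intro f
    apply Subtype.ext
    funext x
    rw [← sub_eq_zero, ← norm_le_zero_iff]
    have hP : 0 ≤ ∑' y, ‖φ y‖ := tsum_nonneg fun _ => norm_nonneg _
    refine le_of_forall_pos_le_add fun η hη => ?_
    obtain ⟨F, hF⟩ := Mem.approx f.2 (η / (C + ∑' y, ‖φ y‖ + 1)) (by positivity)
    set r : (space H K).E := f - ⟨cut F f, mem_cut F f⟩ with hr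
    have hTr : (T f : H × K → ℂ) x - (convOp φ hs f : H × K → ℂ) x =
        (T r : H × K → ℂ) x - (convOp φ hs r : H × K → ℂ) x := by
      rw [hr, map_sub, map_sub, hcut F f]
      show _ = ((T f : H × K → ℂ) x - _) - ((convOp φ hs f : H × K → ℂ) x - _)
      ring
    rw [hTr, zero_add]
    have hrn : nrm (r : H × K → ℂ) ≤ η / (C + ∑' y, ‖φ y‖ + 1) := hF
    have h1 : ‖(T r : H × K → ℂ) x‖ ≤ C * nrm (r : H × K → ℂ) :=
      (Mem.norm_le (T r).2 x).trans (hC r)
    have h2 : ‖(convOp φ hs r : H × K → ℂ) x‖ ≤ (∑' y, ‖φ y‖) * nrm (r : H × K → ℂ) :=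
      (Mem.norm_le (convOp φ hs r).2 x).trans (nrm_le (bd_conv hs r.2))
    calc ‖(T r : H × K → ℂ) x - (convOp φ hs r : H × K → ℂ) x‖
        ≤ ‖(T r : H × K → ℂ) x‖ + ‖(convOp φ hs r : H × K → ℂ) x‖ := norm_sub_le _ _
      _ ≤ (C + ∑' y, ‖φ y‖) * nrm (r : H × K → ℂ) := by rw [add_mul]; exact add_le_add h1 h2
      _ ≤ (C + ∑' y, ‖φ y‖) * (η / (C + ∑' y, ‖φ y‖ + 1)) :=
          mul_le_mul_of_nonneg_left hrn (by positivity)
      _ ≤ η := by
          rw [mul_div_assoc', div_le_iff₀ (by positivity)]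
          nlinarith
  rw [heq]
  exact convOp_regular φ hs

end Commuting


/-! ### Walsh matrices -/

section Walsh

/-- Walsh matrix entries. -/
noncomputable def walsh {n : ℕ} (A B : Finset (Fin n)) : ℂ := ∏ i ∈ A, (if i ∈ B then -1 else 1)

theorem norm_walsh {n : ℕ} (A B : Finset (Fin n)) : ‖walsh A B‖ = 1 := by
  unfold walsh
  rw [norm_prod]
  refine Finset.prod_eq_one fun i _ => ?_
  split_ifs <;> simp

theorem conj_walsh {n : ℕ} (A B : Finset (Fin n)) :
    (starRingEnd ℂ) (walsh A B) = walsh A B := by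
  unfold walsh
  rw [map_prod]
  refine Finset.prod_congr rfl fun i _ => ?_
  split_ifs <;> simp

theorem walsh_orth {n : ℕ} (B B' : Finset (Fin n)) :
    ∑ A : Finset (Fin n), walsh A B * walsh A B' = if B = B' then (2 : ℂ) ^ n else 0 := by
  have h1 : ∑ A : Finset (Fin n), walsh A B * walsh A B' =
      ∏ i : Fin n, (1 + (if i ∈ B then (-1 : ℂ) else 1) * (if i ∈ B' then -1 else 1)) := by
    rw [Finset.prod_one_add, Finset.powerset_univ]
    refine Finset.sum_congr rfl fun A _ => ?_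
    unfold walsh
    rw [← Finset.prod_mul_distrib]
  rw [h1]
  split_ifs with h
  · subst h
    have h2 : ∀ i : Fin n, (1 + (if i ∈ B then (-1 : ℂ) else 1) * (if i ∈ B then -1 else 1)) = 2 := by
      intro i
      split_ifs <;> norm_num
    simp_rw [h2]
    simp
  · obtain ⟨i, hi⟩ : ∃ i, ¬ (i ∈ B ↔ i ∈ B') := by
      by_contra hc
      push Not at hc
      exact h (Finset.ext hc)
    refine Finset.prod_eq_zero (Finset.mem_univ i) ?_
    by_cases h1 : i ∈ B <;> by_cases h2 : i ∈ B' <;> simp_all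

theorem walsh_parseval {n : ℕ} (x : Finset (Fin n) → ℂ) :
    ∑ A, ‖∑ B, walsh A B * x B‖ ^ 2 = 2 ^ n * ∑ B, ‖x B‖ ^ 2 := by
  have h : ((∑ A, ‖∑ B, walsh A B * x B‖ ^ 2 : ℝ) : ℂ) = ((2 ^ n * ∑ B, ‖x B‖ ^ 2 : ℝ) : ℂ) := by
    push_cast
    calc ∑ A, ((‖∑ B, walsh A B * x B‖ : ℝ) : ℂ) ^ 2
        = ∑ A, (∑ B, walsh A B * x B) * (∑ B', walsh A B' * (starRingEnd ℂ) (x B')) := by
          refine Finset.sum_congr rfl fun A _ => ?_
          rw [← Complex.mul_conj', map_sum]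
          congr 1
          refine Finset.sum_congr rfl fun B _ => ?_
          rw [map_mul, conj_walsh]
      _ = ∑ A, ∑ B, ∑ B', (walsh A B * walsh A B') * (x B * (starRingEnd ℂ) (x B')) := by
          refine Finset.sum_congr rfl fun A _ => ?_
          rw [Finset.sum_mul_sum]
          refine Finset.sum_congr rfl fun B _ => Finset.sum_congr rfl fun B' _ => ?_
          ring
      _ = ∑ B, ∑ B', (∑ A, walsh A B * walsh A B') * (x B * (starRingEnd ℂ) (x B')) := by
          rw [Finset.sum_comm]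
          refine Finset.sum_congr rfl fun B _ => ?_
          rw [Finset.sum_comm]
          refine Finset.sum_congr rfl fun B' _ => ?_
          rw [Finset.sum_mul]
      _ = ∑ B, (2 : ℂ) ^ n * (x B * (starRingEnd ℂ) (x B)) := by
          refine Finset.sum_congr rfl fun B _ => ?_
          rw [Finset.sum_eq_single B]
          · rw [walsh_orth, if_pos rfl]
          · intro B' _ hB'
            rw [walsh_orth, if_neg (Ne.symm hB'), zero_mul]
          · intro hB
            exact absurd (Finset.mem_univ _) hB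
      _ = 2 ^ n * ∑ B, ((‖x B‖ : ℝ) : ℂ) ^ 2 := by
          rw [Finset.mul_sum]
          refine Finset.sum_congr rfl fun B _ => ?_
          rw [Complex.mul_conj']
  exact_mod_cast h

theorem walsh_l1 (p : ℕ) (x : Finset (Fin (2 * p)) → ℂ) (M : ℝ) (hM0 : 0 ≤ M)
    (hM : ∀ B, ‖x B‖ ≤ M) : ∑ A, ‖∑ B, walsh A B * x B‖ ≤ 8 ^ p * M := by
  have hcard : (Finset.univ : Finset (Finset (Fin (2 * p)))).card = 4 ^ p := by
    rw [Finset.card_univ, Fintype.card_finset, Fintype.card_fin, pow_mul]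
    norm_num
  have h1 : (∑ A, ‖∑ B, walsh A B * x B‖) ^ 2 ≤
      (4 : ℝ) ^ p * ∑ A, ‖∑ B, walsh A B * x B‖ ^ 2 := by
    have := sq_sum_le_card_mul_sum_sq (s := (Finset.univ : Finset (Finset (Fin (2 * p)))))
      (f := fun A => ‖∑ B, walsh A B * x B‖)
    rw [hcard] at this
    exact_mod_cast this
  rw [walsh_parseval] at h1
  have h2 : ∑ B, ‖x B‖ ^ 2 ≤ (4 : ℝ) ^ p * M ^ 2 := by
    calc ∑ B, ‖x B‖ ^ 2 ≤ (Finset.univ : Finset (Finset (Fin (2 * p)))).card • M ^ 2 := by
          refine Finset.sum_le_card_nsmul _ _ _ fun B _ => ?_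
          exact pow_le_pow_left₀ (norm_nonneg _) (hM B) 2
      _ = (4 : ℝ) ^ p * M ^ 2 := by
          rw [hcard, nsmul_eq_mul]
          push_cast
          ring
  have h3 : (∑ A, ‖∑ B, walsh A B * x B‖) ^ 2 ≤ (8 ^ p * M) ^ 2 := by
    refine h1.trans ?_
    have h4 : (2 : ℝ) ^ (2 * p) = 4 ^ p := by rw [pow_mul]; norm_num
    have h5 : (4 : ℝ) ^ p * ((2 : ℝ) ^ (2 * p) * ∑ B, ‖x B‖ ^ 2) ≤
        4 ^ p * (4 ^ p * (4 ^ p * M ^ 2)) := by
      rw [h4]
      gcongr
    refine h5.trans (le_of_eq ?_)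
    have h6 : (8 : ℝ) ^ p * 8 ^ p = 4 ^ p * (4 ^ p * 4 ^ p) := by
      rw [← mul_pow, ← mul_pow, ← mul_pow]; norm_num
    calc (4 : ℝ) ^ p * (4 ^ p * (4 ^ p * M ^ 2)) = (4 ^ p * (4 ^ p * 4 ^ p)) * M ^ 2 := by ring
      _ = (8 ^ p * 8 ^ p) * M ^ 2 := by rw [h6]
      _ = (8 ^ p * M) ^ 2 := by ring
  exact le_of_sq_le_sq h3 (by positivity)

end Walsh

/-! ### A bounded operator that is not regular -/

section NonRegular

variable {H K : Type} [Group H]

/-- Index set of the blocks. -/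
abbrev Om : Type := Σ p : ℕ, Finset (Fin (2 * p))

/-- Block coefficients of `f` along the fibre `{1} × K`. -/
noncomputable def val (ι : Om → K) (f : H × K → ℂ) (ω : Om) : ℂ :=
  (3 / 32 : ℂ) ^ ω.1 * ∑ B, walsh ω.2 B * f (1, ι ⟨ω.1, B⟩)

theorem block_le (ι : Om → K) {f : H × K → ℂ} (hf : Mem f) (p : ℕ) :
    ∑ A, ‖val ι f ⟨p, A⟩‖ ≤ (3 / 4) ^ p * nrm f := by
  have h1 := walsh_l1 p (fun B => f (1, ι ⟨p, B⟩)) (nrm f) hf.nrm_nonneg fun B => hf.norm_le _
  calc ∑ A, ‖val ι f ⟨p, A⟩‖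
      = (3 / 32 : ℝ) ^ p * ∑ A, ‖∑ B, walsh A B * f (1, ι ⟨p, B⟩)‖ := by
        rw [Finset.mul_sum]
        refine Finset.sum_congr rfl fun A _ => ?_
        unfold val
        rw [norm_mul, norm_pow, norm_div]
        norm_num
    _ ≤ (3 / 32 : ℝ) ^ p * (8 ^ p * nrm f) := mul_le_mul_of_nonneg_left h1 (by positivity)
    _ = (3 / 4) ^ p * nrm f := by
        rw [← mul_assoc, ← mul_pow]
        norm_num

theorem val_summable (ι : Om → K) {f : H × K → ℂ} (hf : Mem f) :
    Summable fun ω => ‖val ι f ω‖ := by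
  rw [summable_sigma_of_nonneg fun _ => norm_nonneg _]
  refine ⟨fun p => (hasSum_fintype _).summable, ?_⟩
  refine Summable.of_nonneg_of_le (fun p => tsum_nonneg fun _ => norm_nonneg _) (fun p => ?_)
    ((summable_geometric_of_lt_one (by norm_num : (0 : ℝ) ≤ 3 / 4) (by norm_num)).mul_right (nrm f))
  rw [tsum_fintype]
  exact block_le ι hf p

theorem val_tsum (ι : Om → K) {f : H × K → ℂ} (hf : Mem f) :
    ∑' ω, ‖val ι f ω‖ ≤ 4 * nrm f := by
  have hg := (summable_geometric_of_lt_one (by norm_num : (0 : ℝ) ≤ 3 / 4) (by norm_num))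
  rw [(val_summable ι hf).tsum_sigma]
  calc ∑' p, ∑' A, ‖val ι f ⟨p, A⟩‖ ≤ ∑' p : ℕ, (3 / 4 : ℝ) ^ p * nrm f := by
        refine Summable.tsum_le_tsum (fun p => ?_) (val_summable ι hf).sigma (hg.mul_right _)
        rw [tsum_fintype]
        exact block_le ι hf p
    _ = 4 * nrm f := by
        rw [tsum_mul_right, tsum_geometric_of_lt_one (by norm_num) (by norm_num)]
        norm_num

/-- Place the block coefficients on the points `j ω`. -/
noncomputable def put (j : Om → H × K) (ι : Om → K) (f : H × K → ℂ) : H × K → ℂ :=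
  Function.extend j (val ι f) 0

theorem put_summable (j : Om → H × K) (hj : Function.Injective j) (ι : Om → K)
    {f : H × K → ℂ} (hf : Mem f) : Summable fun x => ‖put j ι f x‖ := by
  rw [← hj.summable_iff]
  · have : ((fun x => ‖put j ι f x‖) ∘ j) = fun ω => ‖val ι f ω‖ := by
      funext ω
      show ‖put j ι f (j ω)‖ = _
      unfold put
      rw [hj.extend_apply]
    rw [this]
    exact val_summable ι hf
  · intro x hx
    unfold put
    rw [Function.extend_apply' _ _ _ (by simpa using hx)]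
    simp

theorem put_tsum (j : Om → H × K) (hj : Function.Injective j) (ι : Om → K)
    {f : H × K → ℂ} (hf : Mem f) : ∑' x, ‖put j ι f x‖ ≤ 4 * nrm f := by
  have h1 : ∑' ω, ‖put j ι f (j ω)‖ = ∑' x, ‖put j ι f x‖ := by
    refine hj.tsum_eq (f := fun x => ‖put j ι f x‖) ?_
    intro x hx
    by_contra hx'
    apply hx
    show ‖put j ι f x‖ = 0
    unfold put
    rw [Function.extend_apply' _ _ _ (by simpa using hx')]
    simp
  rw [← h1]
  have h2 : ∀ ω, put j ι f (j ω) = val ι f ω := fun ω => by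
    unfold put
    rw [hj.extend_apply]
  simp_rw [h2]
  exact val_tsum ι hf

/-- The operator. -/
noncomputable def putOp (j : Om → H × K) (hj : Function.Injective j) (ι : Om → K) :
    (space H K).E →ₗ[ℂ] (space H K).E where
  toFun f := ⟨put j ι f, mem_of_summable (put_summable j hj ι f.2)⟩
  map_add' f g := by
    apply Subtype.ext
    funext x
    show put j ι ((f : H × K → ℂ) + (g : H × K → ℂ)) x = put j ι f x + put j ι g x
    unfold put
    by_cases hx : ∃ ω, j ω = x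
    · obtain ⟨ω, rfl⟩ := hx
      rw [hj.extend_apply, hj.extend_apply, hj.extend_apply]
      unfold val
      rw [← mul_add, ← Finset.sum_add_distrib]
      congr 1
      refine Finset.sum_congr rfl fun B _ => ?_
      rw [Pi.add_apply]
      ring
    · rw [Function.extend_apply' _ _ _ hx, Function.extend_apply' _ _ _ hx,
        Function.extend_apply' _ _ _ hx]
      simp
  map_smul' c f := by
    apply Subtype.ext
    funext x
    show put j ι (c • (f : H × K → ℂ)) x = c * put j ι f x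
    unfold put
    by_cases hx : ∃ ω, j ω = x
    · obtain ⟨ω, rfl⟩ := hx
      rw [hj.extend_apply, hj.extend_apply]
      unfold val
      have hs : ∑ B, walsh ω.2 B * (c • (f : H × K → ℂ)) (1, ι ⟨ω.1, B⟩) =
          c * ∑ B, walsh ω.2 B * (f : H × K → ℂ) (1, ι ⟨ω.1, B⟩) := by
        rw [Finset.mul_sum]
        refine Finset.sum_congr rfl fun B _ => ?_
        rw [Pi.smul_apply, smul_eq_mul]
        ring
      rw [hs]
      ring
    · rw [Function.extend_apply' _ _ _ hx, Function.extend_apply' _ _ _ hx]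
      simp

theorem putOp_bdd (j : Om → H × K) (hj : Function.Injective j) (ι : Om → K) :
    (space H K).IsBdd (putOp j hj ι) :=
  ⟨4, fun f => (nrm_le_tsum (put_summable j hj ι f.2)).trans (put_tsum j hj ι f.2)⟩

omit [Group H] in
/-- A regular operator is dominated by a positive one on nonnegative functions. -/
theorem dominated (T : (space H K).E →ₗ[ℂ] (space H K).E) (hT : (space H K).IsRegular T) :
    ∃ P : (space H K).E →ₗ[ℂ] (space H K).E, (space H K).IsPos P ∧
      ∀ f : (space H K).E, (∀ s, 0 ≤ (f : H × K → ℂ) s) →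
        ∀ s, ‖(T f : H × K → ℂ) s‖ ≤ ((P f : H × K → ℂ) s).re := by
  unfold BFS.IsRegular at hT
  induction hT using Submodule.span_induction with
  | mem S hS =>
    refine ⟨S, hS, fun f hf s => ?_⟩
    have h1 := hS f hf s
    rw [Complex.le_def] at h1
    have h2 : (S f : H × K → ℂ) s = (((S f : H × K → ℂ) s).re : ℂ) := by
      apply Complex.ext
      · simp
      · simpa using h1.2.symm
    calc ‖(S f : H × K → ℂ) s‖ = ‖((((S f : H × K → ℂ) s).re : ℝ) : ℂ)‖ := by rw [← h2]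
      _ = |((S f : H × K → ℂ) s).re| := by rw [Complex.norm_real, Real.norm_eq_abs]
      _ = ((S f : H × K → ℂ) s).re := abs_of_nonneg (by simpa using h1.1)
      _ ≤ _ := le_rfl
  | zero =>
    refine ⟨(0 : (space H K).E →ₗ[ℂ] (space H K).E), fun f _ s => ?_, fun f _ s => ?_⟩
    · show (0 : ℂ) ≤ 0
      exact le_rfl
    · show ‖(0 : ℂ)‖ ≤ (0 : ℂ).re
      simp
  | add S₁ S₂ _ _ h₁ h₂ =>
    obtain ⟨P₁, hP₁, hd₁⟩ := h₁
    obtain ⟨P₂, hP₂, hd₂⟩ := h₂
    refine ⟨P₁ + P₂, fun f hf s => ?_, fun f hf s => ?_⟩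
    · show 0 ≤ (P₁ f : H × K → ℂ) s + (P₂ f : H × K → ℂ) s
      exact add_nonneg (hP₁ f hf s) (hP₂ f hf s)
    · show ‖(S₁ f : H × K → ℂ) s + (S₂ f : H × K → ℂ) s‖ ≤
        ((P₁ f : H × K → ℂ) s + (P₂ f : H × K → ℂ) s).re
      rw [Complex.add_re]
      exact (norm_add_le _ _).trans (add_le_add (hd₁ f hf s) (hd₂ f hf s))
  | smul c S _ h =>
    obtain ⟨P, hP, hd⟩ := h
    refine ⟨(‖c‖ : ℂ) • P, fun f hf s => ?_, fun f hf s => ?_⟩
    · show 0 ≤ (‖c‖ : ℂ) * (P f : H × K → ℂ) s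
      refine mul_nonneg ?_ (hP f hf s)
      exact_mod_cast norm_nonneg c
    · show ‖c * (S f : H × K → ℂ) s‖ ≤ ((‖c‖ : ℂ) * (P f : H × K → ℂ) s).re
      rw [norm_mul, Complex.re_ofReal_mul]
      exact mul_le_mul_of_nonneg_left (hd f hf s) (norm_nonneg _)

/-- The test function `∑_ω (3/4)^{|ω|} δ_{(1, ι ω)}`. -/
noncomputable def tst (ι : Om → K) : H × K → ℂ :=
  Function.extend (fun ω : Om => ((1 : H), ι ω)) (fun ω => ((3 / 4 : ℝ) ^ ω.1 : ℝ)) 0

theorem pos_inj (ι : Om → K) (hι : Function.Injective ι) :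
    Function.Injective (fun ω : Om => ((1 : H), ι ω)) := fun _ _ h =>
  hι (congrArg Prod.snd h)

theorem tst_apply (ι : Om → K) (hι : Function.Injective ι) (ω : Om) :
    (tst ι : H × K → ℂ) (1, ι ω) = ((3 / 4 : ℝ) ^ ω.1 : ℝ) := by
  unfold tst
  exact (pos_inj ι hι).extend_apply _ _ ω

theorem tst_nonneg (ι : Om → K) (hι : Function.Injective ι) (x : H × K) :
    0 ≤ (tst ι : H × K → ℂ) x := by
  by_cases hx : ∃ ω : Om, ((1 : H), ι ω) = x
  · obtain ⟨ω, rfl⟩ := hx
    rw [tst_apply ι hι]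
    have : (0 : ℝ) ≤ (3 / 4 : ℝ) ^ ω.1 := by positivity
    exact_mod_cast this
  · unfold tst
    rw [Function.extend_apply' _ _ _ hx]
    exact le_rfl

theorem tst_mem (ι : Om → K) (hι : Function.Injective ι) : Mem (tst ι : H × K → ℂ) := by
  classical
  intro ε hε
  obtain ⟨P, hP⟩ := exists_pow_lt_of_lt_one hε (by norm_num : (3 / 4 : ℝ) < 1)
  set F : Finset (H × K) := ((Finset.range P).sigma fun p =>
    (Finset.univ : Finset (Finset (Fin (2 * p))))).image (fun ω : Om => ((1 : H), ι ω)) with hF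
  refine ⟨F, fun S hS hd => ?_⟩
  have h1 : Bd (fun x => if x ∈ F then 0 else (tst ι : H × K → ℂ) x) ((3 / 4 : ℝ) ^ P) := by
    refine bd_slice 1 _ _ (by positivity) ?_ ?_
    · intro x hx
      have : (tst ι : H × K → ℂ) x = 0 := by
        unfold tst
        rw [Function.extend_apply']
        · rfl
        · rintro ⟨ω, rfl⟩
          exact hx rfl
      simp [this]
    · intro x
      show ‖if x ∈ F then 0 else (tst ι : H × K → ℂ) x‖ ≤ _
      split_ifs with hxF
      · rw [norm_zero]; positivity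
      · by_cases hx : ∃ ω : Om, ((1 : H), ι ω) = x
        · obtain ⟨ω, rfl⟩ := hx
          rw [tst_apply ι hι, Complex.norm_real, Real.norm_of_nonneg (by positivity)]
          refine pow_le_pow_of_le_one (by norm_num) (by norm_num) ?_
          by_contra hlt
          apply hxF
          rw [hF]
          refine Finset.mem_image.2 ⟨ω, ?_, rfl⟩
          rw [Finset.mem_sigma]
          exact ⟨Finset.mem_range.2 (not_le.1 hlt), Finset.mem_univ _⟩
        · unfold tst
          rw [Function.extend_apply' _ _ _ hx]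
          simp only [Pi.zero_apply, norm_zero]
          positivity
  have h2 := h1 S hS
  have h3 : ∑ x ∈ S, ‖(fun x => if x ∈ F then 0 else (tst ι : H × K → ℂ) x) x‖ =
      ∑ x ∈ S, ‖(tst ι : H × K → ℂ) x‖ := by
    refine Finset.sum_congr rfl fun x hx => ?_
    show ‖if x ∈ F then 0 else (tst ι : H × K → ℂ) x‖ = _
    rw [if_neg (Finset.disjoint_left.1 hd hx)]
  rw [h3] at h2
  linarith

theorem putOp_not_regular [Group K] (κ : Om → H) (hκ : Function.Injective κ) (ι : Om → K)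
    (hι : Function.Injective ι)
    (hj : Function.Injective fun ω : Om => (κ ω, (1 : K))) :
    ¬ (space H K).IsRegular (putOp (fun ω : Om => (κ ω, (1 : K))) hj ι) := by
  classical
  intro hreg
  obtain ⟨P, hP, hdom⟩ := dominated _ hreg
  set f₀ : (space H K).E := ⟨tst ι, tst_mem ι hι⟩ with hf₀
  have hcard : ∀ p : ℕ, ((Finset.univ : Finset (Finset (Fin (2 * p)))).card : ℝ) = 4 ^ p := by
    intro p
    rw [Finset.card_univ, Fintype.card_finset, Fintype.card_fin, pow_mul]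
    norm_num
  -- pointwise lower bound
  have hlow : ∀ (p : ℕ) (A : Finset (Fin (2 * p))),
      (9 / 32 : ℝ) ^ p ≤ ‖(P f₀ : H × K → ℂ) (κ ⟨p, A⟩, 1)‖ := by
    intro p A
    set fp : (space H K).E := ∑ B : Finset (Fin (2 * p)), (((3 / 4 : ℝ) ^ p : ℝ) : ℂ) •
      dE ((1 : H), ι ⟨p, B⟩) with hfp
    have hfpv : ∀ x, (fp : H × K → ℂ) x =
        ∑ B : Finset (Fin (2 * p)), (((3 / 4 : ℝ) ^ p : ℝ) : ℂ) * dl ((1 : H), ι ⟨p, B⟩) x := by
      intro x
      have : (fp : H × K → ℂ) = ∑ B : Finset (Fin (2 * p)), (((3 / 4 : ℝ) ^ p : ℝ) : ℂ) •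
          dl ((1 : H), ι ⟨p, B⟩) := by
        rw [hfp, Submodule.coe_sum]
        rfl
      rw [this, Finset.sum_apply]
      rfl
    have hdiff : ∀ s, 0 ≤ ((f₀ - fp : (space H K).E) : H × K → ℂ) s := by
      intro s
      show 0 ≤ (tst ι : H × K → ℂ) s - (fp : H × K → ℂ) s
      rw [hfpv]
      by_cases hs : ∃ B : Finset (Fin (2 * p)), ((1 : H), ι ⟨p, B⟩) = s
      · obtain ⟨B, rfl⟩ := hs
        rw [Finset.sum_eq_single B]
        · rw [dl_self, mul_one, tst_apply ι hι, sub_self]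
        · intro B' _ hB'
          rw [dl_ne, mul_zero]
          intro h
          have h1 := hι (congrArg Prod.snd h)
          apply hB'
          have h2 := eq_of_heq (Sigma.mk.inj_iff.1 h1).2
          exact h2.symm
        · intro h
          exact absurd (Finset.mem_univ _) h
      · push Not at hs
        rw [Finset.sum_eq_zero, sub_zero]
        · exact tst_nonneg ι hι s
        · intro B _
          rw [dl_ne, mul_zero]
          exact (hs B).symm
    have h1 := hP _ hdiff (κ ⟨p, A⟩, 1)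
    rw [Complex.le_def] at h1
    have h2 : ((P (f₀ - fp) : (space H K).E) : H × K → ℂ) (κ ⟨p, A⟩, 1) =
        (P f₀ : H × K → ℂ) (κ ⟨p, A⟩, 1) - (P fp : H × K → ℂ) (κ ⟨p, A⟩, 1) := by
      rw [map_sub]
      rfl
    rw [h2, Complex.sub_re] at h1
    have h3 : ((P fp : H × K → ℂ) (κ ⟨p, A⟩, 1)).re = ∑ B : Finset (Fin (2 * p)),
        (3 / 4 : ℝ) ^ p * ((P (dE ((1 : H), ι ⟨p, B⟩)) : H × K → ℂ) (κ ⟨p, A⟩, 1)).re := by
      have h4 : P fp = ∑ B : Finset (Fin (2 * p)), (((3 / 4 : ℝ) ^ p : ℝ) : ℂ) •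
          P (dE ((1 : H), ι ⟨p, B⟩)) := by
        rw [hfp, map_sum]
        simp
      have h5 : ((P fp : (space H K).E) : H × K → ℂ) =
          ∑ B : Finset (Fin (2 * p)), (((3 / 4 : ℝ) ^ p : ℝ) : ℂ) •
            (P (dE ((1 : H), ι ⟨p, B⟩)) : H × K → ℂ) := by
        rw [h4, Submodule.coe_sum]
        rfl
      rw [h5, Finset.sum_apply, Complex.re_sum]
      refine Finset.sum_congr rfl fun B _ => ?_
      rw [Pi.smul_apply, smul_eq_mul, Complex.re_ofReal_mul]
    have h4 : ∀ B : Finset (Fin (2 * p)), (3 / 32 : ℝ) ^ p ≤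
        ((P (dE ((1 : H), ι ⟨p, B⟩)) : H × K → ℂ) (κ ⟨p, A⟩, 1)).re := by
      intro B
      have h5 := hdom (dE ((1 : H), ι ⟨p, B⟩)) (fun s => by
        show 0 ≤ dl ((1 : H), ι ⟨p, B⟩) s
        by_cases hs : s = ((1 : H), ι ⟨p, B⟩)
        · rw [hs, dl_self]
          exact zero_le_one
        · rw [dl_ne hs]) (κ ⟨p, A⟩, 1)
      refine le_trans (le_of_eq ?_) h5
      have h6 : ((putOp (fun ω : Om => (κ ω, (1 : K))) hj ι (dE ((1 : H), ι ⟨p, B⟩)) :
          (space H K).E) : H × K → ℂ) (κ ⟨p, A⟩, 1) =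
          val ι (dl ((1 : H), ι ⟨p, B⟩)) ⟨p, A⟩ := by
        show put _ ι (dl ((1 : H), ι ⟨p, B⟩)) (κ ⟨p, A⟩, 1) = _
        unfold put
        exact hj.extend_apply _ _ (⟨p, A⟩ : Om)
      rw [h6]
      unfold val
      rw [Finset.sum_eq_single B]
      · rw [dl_self, mul_one, norm_mul, norm_walsh, mul_one, norm_pow, norm_div]
        norm_num
      · intro B' _ hB'
        rw [dl_ne, mul_zero]
        intro h
        have h1 := hι (congrArg Prod.snd h)
        exact hB' (eq_of_heq (Sigma.mk.inj_iff.1 h1).2)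
      · intro h
        exact absurd (Finset.mem_univ _) h
    have h5 : (9 / 32 : ℝ) ^ p ≤ ((P fp : H × K → ℂ) (κ ⟨p, A⟩, 1)).re := by
      rw [h3]
      calc (9 / 32 : ℝ) ^ p = (Finset.univ : Finset (Finset (Fin (2 * p)))).card •
            ((3 / 4 : ℝ) ^ p * (3 / 32) ^ p) := by
            rw [nsmul_eq_mul, hcard, ← mul_pow, ← mul_pow]
            norm_num
        _ ≤ _ := by
            refine Finset.card_nsmul_le_sum _ _ _ fun B _ => ?_
            exact mul_le_mul_of_nonneg_left (h4 B) (by positivity)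
    have h6 : (0 : ℂ).re = 0 := rfl
    calc (9 / 32 : ℝ) ^ p ≤ ((P fp : H × K → ℂ) (κ ⟨p, A⟩, 1)).re := h5
      _ ≤ ((P f₀ : H × K → ℂ) (κ ⟨p, A⟩, 1)).re := by linarith [h1.1]
      _ ≤ ‖(P f₀ : H × K → ℂ) (κ ⟨p, A⟩, 1)‖ := Complex.re_le_norm _
  have hbig : ∀ p : ℕ, (9 / 8 : ℝ) ^ p ≤ nrm (P f₀ : H × K → ℂ) := by
    intro p
    have hgraph : IsGraph ((Finset.univ : Finset (Finset (Fin (2 * p)))).image
        fun A => (κ ⟨p, A⟩, (1 : K))) := by
      intro a ha b hb hab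
      obtain ⟨A, -, rfl⟩ := Finset.mem_image.1 ha
      obtain ⟨B, -, rfl⟩ := Finset.mem_image.1 hb
      exact Prod.ext hab rfl
    have h1 := Mem.bd_nrm (P f₀).2 _ hgraph
    rw [Finset.sum_image] at h1
    · refine le_trans ?_ h1
      calc (9 / 8 : ℝ) ^ p = (Finset.univ : Finset (Finset (Fin (2 * p)))).card •
            (9 / 32 : ℝ) ^ p := by
            rw [nsmul_eq_mul, hcard, ← mul_pow]
            norm_num
        _ ≤ _ := Finset.card_nsmul_le_sum _ _ _ fun A _ => hlow p A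
    · intro A _ B _ hAB
      have h1 := hκ (congrArg Prod.fst hAB)
      exact eq_of_heq (Sigma.mk.inj_iff.1 h1).2
  obtain ⟨p, hp⟩ := pow_unbounded_of_one_lt (nrm (P f₀ : H × K → ℂ))
    (by norm_num : (1 : ℝ) < 9 / 8)
  exact absurd (hbig p) (not_le.2 hp)

end NonRegular

/-- Let `H` and `K` be infinite discrete groups and `G = H × K` (for `H = K = ℤ` this is the abelian,
hence amenable, group `ℤ²`). There is a Banach function space on `G` on which left and right
translations act isometrically, which carries a bounded non-regular operator, and on which every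
bounded operator commuting with all right translations is regular. -/
theorem result (H K : Type) [Group H] [Group K] [Infinite H] [Infinite K] :
    ∃ X : BFS (H × K), X.IsoInvariant ∧
      (∃ T : X.Op, X.IsBdd T ∧ ¬ X.IsRegular T) ∧
      ∀ T : X.Op, X.IsBdd T → X.CommutesRight T → X.IsRegular T := by
  obtain ⟨e, he⟩ := exists_injective_nat Om
  set κ : Om → H := fun ω => Infinite.natEmbedding H (e ω) with hκ
  set ι : Om → K := fun ω => Infinite.natEmbedding K (e ω) with hι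
  have hκi : Function.Injective κ := fun a b h => he ((Infinite.natEmbedding H).injective h)
  have hιi : Function.Injective ι := fun a b h => he ((Infinite.natEmbedding K).injective h)
  have hj : Function.Injective fun ω : Om => (κ ω, (1 : K)) := fun a b h =>
    hκi (congrArg Prod.fst h)
  exact ⟨space H K, isoInvariant, ⟨putOp _ hj ι, putOp_bdd _ hj ι,
    putOp_not_regular κ hκi ι hιi hj⟩, fun T hb hT => commuting_regular T hb hT⟩

end Pool.Agent.Results.MP_3f33d0_an.MixedNorm
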